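import Pool.Agent.Helper92.PV.St

/-!
# Project PV, module CHN: the chain of derivatives
-/

set_option autoImplicit false

open Finset

noncomputable section

namespace Pool.Agent.Helper95.PV

open Pool.Agent.Helper92.PV Pool.Agent.Helper92.PU Pool.Agent.Helper92.PW

/-- A nonzero homogeneous polynomial of positive degree has a nonzero derivative. -/
theorem exists_pderiv_ne {n : ℕ} (hn : 1 ≤ n) {G : MvPolynomial (Fin 3) ℤ}
    (hG : G.IsHomogeneous n) (h0 : G ≠ 0) : ∃ b, MvPolynomial.pderiv b G ≠ 0 := by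
  by_contra hcon
  push Not at hcon
  have h1 := hG.sum_X_mul_pderiv
  simp only [hcon, mul_zero, Finset.sum_const_zero] at h1
  have h2 : (n : ℕ) = 0 ∨ G = 0 := smul_eq_zero.1 h1.symm
  rcases h2 with h2 | h2
  · omega
  · exact h0 h2

open Classical in
/-- a step of the chain -/
def stp (P : MvPolynomial (Fin 3) ℤ) : MvPolynomial (Fin 3) ℤ :=
  if h : ∃ b, MvPolynomial.pderiv b P ≠ 0 then MvPolynomial.pderiv h.choose P else P

theorem stp_spec {n : ℕ} (hn : 1 ≤ n) {G : MvPolynomial (Fin 3) ℤ}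
    (hG : G.IsHomogeneous n) (h0 : G ≠ 0) : ∃ b, stp G = MvPolynomial.pderiv b G ∧
      stp G ≠ 0 ∧ (stp G).IsHomogeneous (n - 1) := by
  have h := exists_pderiv_ne hn hG h0
  have e : stp G = MvPolynomial.pderiv h.choose G := by
    unfold stp
    rw [dif_pos h]
  refine ⟨h.choose, e, ?_, ?_⟩
  · rw [e]; exact h.choose_spec
  · rw [e]; exact hG.pderiv

/-- the chain -/
def chn (G : MvPolynomial (Fin 3) ℤ) (l : ℕ) : MvPolynomial (Fin 3) ℤ := stp^[l] G

theorem chn_zero (G : MvPolynomial (Fin 3) ℤ) : chn G 0 = G := rfl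

theorem chn_succ (G : MvPolynomial (Fin 3) ℤ) (l : ℕ) : chn G (l + 1) = stp (chn G l) := by
  unfold chn
  rw [Function.iterate_succ_apply']

theorem chn_spec {D : ℕ} {G : MvPolynomial (Fin 3) ℤ} (hG : G.IsHomogeneous D) (h0 : G ≠ 0) :
    ∀ l ≤ D, chn G l ≠ 0 ∧ (chn G l).IsHomogeneous (D - l) := by
  intro l
  induction l with
  | zero => intro _; exact ⟨h0, hG⟩
  | succ l ih =>
    intro hl
    obtain ⟨h1, h2⟩ := ih (by omega)
    obtain ⟨b, _, h4, h5⟩ := stp_spec (by omega) h2 h1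
    rw [chn_succ]
    refine ⟨h4, ?_⟩
    have e : D - l - 1 = D - (l + 1) := by omega
    rw [← e]; exact h5

theorem coeff_pd_le {n : ℕ} {P : MvPolynomial (Fin 3) ℤ} (hP : P.IsHomogeneous n) {A : ℝ}
    (hA : ∀ s, |((P.coeff s : ℤ) : ℝ)| ≤ A) (b : Fin 3) (s : Fin 3 →₀ ℕ) :
    |(((MvPolynomial.pderiv b P).coeff s : ℤ) : ℝ)| ≤ n * A := by
  have hA0 : 0 ≤ A := le_trans (abs_nonneg _) (hA 0)
  rw [MvPolynomial.coeff_pderiv]
  by_cases hc : P.coeff (s + Finsupp.single b 1) = 0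
  · rw [hc]; simp; positivity
  · have hd2 : s b + 1 ≤ n := by
      by_contra hlt
      refine hc (hP.coeff_eq_zero ?_)
      have h4 : (s + Finsupp.single b 1 : Fin 3 →₀ ℕ) b ≤
          (s + Finsupp.single b 1 : Fin 3 →₀ ℕ).degree := Finsupp.le_degree b _
      rw [Finsupp.add_apply, Finsupp.single_eq_same] at h4
      omega
    push_cast
    rw [abs_mul, mul_comm]
    have h3 : |((s b : ℝ) + 1)| ≤ n := by
      rw [abs_of_nonneg (by positivity)]
      exact_mod_cast hd2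
    exact mul_le_mul h3 (hA _) (abs_nonneg _) (by positivity)

theorem coeff_chn_le {D : ℕ} {G : MvPolynomial (Fin 3) ℤ} (hG : G.IsHomogeneous D) (h0 : G ≠ 0)
    {A : ℝ} (hA : ∀ s, |((G.coeff s : ℤ) : ℝ)| ≤ A) :
    ∀ l ≤ D, ∀ s, |(((chn G l).coeff s : ℤ) : ℝ)| ≤ (D : ℝ) ^ l * A := by
  have hA0 : 0 ≤ A := le_trans (abs_nonneg _) (hA 0)
  intro l
  induction l with
  | zero => intro _ s; rw [chn_zero, pow_zero, one_mul]; exact hA s
  | succ l ih =>
    intro hl s
    obtain ⟨h1, h2⟩ := chn_spec hG h0 l (by omega)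
    obtain ⟨b, h3, _, _⟩ := stp_spec (by omega) h2 h1
    rw [chn_succ, h3]
    refine le_trans (coeff_pd_le h2 (ih (by omega)) b s) ?_
    rw [pow_succ', mul_assoc]
    refine mul_le_mul_of_nonneg_right ?_ (by positivity)
    exact_mod_cast Nat.sub_le D l

/-- the exponents of degree at most `D` -/
def exs (D : ℕ) : Finset (Fin 3 →₀ ℕ) := Finset.Iic (Finsupp.equivFunOnFinite.symm fun _ => D)

theorem mem_exs {D n : ℕ} (hn : n ≤ D) {P : MvPolynomial (Fin 3) ℤ} (hP : P.IsHomogeneous n)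
    {s : Fin 3 →₀ ℕ} (hs : s ∈ P.support) : s ∈ exs D := by
  unfold exs
  rw [Finset.mem_Iic]
  intro i
  have h1 : s.degree = n := by
    by_contra h
    exact (MvPolynomial.mem_support_iff.1 hs) (hP.coeff_eq_zero h)
  have h2 : s i ≤ s.degree := Finsupp.le_degree i s
  simp only [Finsupp.equivFunOnFinite_symm_apply_apply]
  omega

theorem vl_le {D n : ℕ} (hn : n ≤ D) {P : MvPolynomial (Fin 3) ℤ} (hP : P.IsHomogeneous n)
    {A B : ℝ} (hB : 1 ≤ B) (hA : ∀ s, |((P.coeff s : ℤ) : ℝ)| ≤ A) {p : Pt} (hp : Bd B p) :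
    |(vl P p : ℝ)| ≤ (exs D).card * A * B ^ D := by
  have hA0 : 0 ≤ A := le_trans (abs_nonneg _) (hA 0)
  have hv : ∀ i, |((vec p i : ℤ) : ℝ)| ≤ B := by
    obtain ⟨h1, h2, h3⟩ := hp
    intro i
    fin_cases i
    · exact h1
    · exact h2
    · exact h3
  unfold vl
  rw [MvPolynomial.eval_eq']
  push_cast
  calc |∑ d ∈ P.support, ((P.coeff d : ℤ) : ℝ) * ∏ i, ((vec p i : ℤ) : ℝ) ^ d i|
      ≤ ∑ d ∈ P.support, |((P.coeff d : ℤ) : ℝ) * ∏ i, ((vec p i : ℤ) : ℝ) ^ d i| :=
        Finset.abs_sum_le_sum_abs _ _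
    _ ≤ ∑ d ∈ P.support, A * B ^ D := by
        refine Finset.sum_le_sum fun d hd => ?_
        rw [abs_mul]
        refine mul_le_mul (hA d) ?_ (abs_nonneg _) hA0
        have h1 : d.degree = n := by
          by_contra h
          exact (MvPolynomial.mem_support_iff.1 hd) (hP.coeff_eq_zero h)
        rw [Finset.abs_prod]
        calc ∏ i, |((vec p i : ℤ) : ℝ) ^ d i| ≤ ∏ i, B ^ d i := by
              refine Finset.prod_le_prod (fun i _ => abs_nonneg _) fun i _ => ?_
              rw [abs_pow]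
              exact pow_le_pow_left₀ (abs_nonneg _) (hv i) _
          _ = B ^ d.degree := by
              rw [Finset.prod_pow_eq_pow_sum, Finsupp.degree_eq_sum]
          _ ≤ B ^ D := pow_le_pow_right₀ hB (by omega)
    _ = P.support.card * (A * B ^ D) := by rw [Finset.sum_const, nsmul_eq_mul]
    _ ≤ (exs D).card * (A * B ^ D) := by
        refine mul_le_mul_of_nonneg_right ?_ (by positivity)
        exact_mod_cast Finset.card_le_card fun s hs => mem_exs hn hP hs
    _ = (exs D).card * A * B ^ D := by ring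

theorem hCHN : StCHN := by
  intro D
  refine ⟨(exs D).card * (D : ℝ) ^ D + 1, by positivity, ?_⟩
  intro G h0 hG
  refine ⟨chn G, fun l hl => (chn_spec hG h0 l hl.le).2, ?_, ?_⟩
  · intro A B hA0 hB hA l hl p hp b
    obtain ⟨h1, h2⟩ := chn_spec hG h0 l hl.le
    unfold grd
    have h3 : (MvPolynomial.pderiv b (chn G l)).IsHomogeneous (D - l - 1) := h2.pderiv
    have h4 : ∀ s, |(((MvPolynomial.pderiv b (chn G l)).coeff s : ℤ) : ℝ)| ≤ (D : ℝ) ^ D * A := by
      intro s
      refine le_trans (coeff_pd_le h2 (coeff_chn_le hG h0 hA l hl.le) b s) ?_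
      have h5 : ((D - l : ℕ) : ℝ) ≤ D := by exact_mod_cast Nat.sub_le D l
      have hD : (1 : ℝ) ≤ D := by exact_mod_cast (by omega : 1 ≤ D)
      calc ((D - l : ℕ) : ℝ) * ((D : ℝ) ^ l * A) ≤ (D : ℝ) * ((D : ℝ) ^ l * A) :=
            mul_le_mul_of_nonneg_right h5 (by positivity)
        _ = (D : ℝ) ^ (l + 1) * A := by ring
        _ ≤ (D : ℝ) ^ D * A :=
            mul_le_mul_of_nonneg_right (pow_le_pow_right₀ hD (by omega)) hA0
    refine le_trans (vl_le (D := D) (by omega) h3 hB h4 hp) ?_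
    have h6 : 0 ≤ A * B ^ D := by positivity
    nlinarith [h6]
  · intro p hp
    have hex : ∃ l, l ≤ D ∧ vl (chn G l) p ≠ 0 := by
      refine ⟨D, le_rfl, ?_⟩
      obtain ⟨h1, h2⟩ := chn_spec hG h0 D le_rfl
      rw [Nat.sub_self] at h2
      rw [← MvPolynomial.totalDegree_zero_iff_isHomogeneous,
        MvPolynomial.totalDegree_eq_zero_iff_eq_C] at h2
      unfold vl
      rw [h2, MvPolynomial.eval_C]
      intro h3
      rw [h3, map_zero] at h2
      exact h1 h2
    classical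
    obtain ⟨hm1, hm2⟩ := Nat.find_spec hex
    have hmpos : Nat.find hex ≠ 0 := by
      intro h
      rw [h] at hm2
      exact hm2 hp
    obtain ⟨l, hl⟩ := Nat.exists_eq_succ_of_ne_zero hmpos
    rw [hl] at hm1 hm2
    have hlt : l < Nat.find hex := by omega
    have h1 := Nat.find_min hex hlt
    push Not at h1
    refine ⟨l, by omega, h1 (by omega), ?_⟩
    obtain ⟨h3, h4⟩ := chn_spec hG h0 l (by omega)
    obtain ⟨b, h5, _, _⟩ := stp_spec (by omega) h4 h3
    refine ⟨b, ?_⟩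
    unfold grd
    rw [← h5, ← chn_succ]
    exact hm2

end Pool.Agent.Helper95.PV
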